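import Pool.Agent.VM.StmtsH

set_option autoImplicit false

/-! NWT: the system of all power sums of degree up to the number of variables. -/

namespace Pool.Agent.VM.H29

open Finset

section

variable {p k : ℕ}

theorem esymm_eq (hp : p.Prime) (hk : k < p) (x y : Fin k → ZMod p)
    (h : ∀ j : Fin k, ∑ i, x i ^ ((j : ℕ) + 1) = ∑ i, y i ^ ((j : ℕ) + 1)) (j : ℕ) :
    j ≤ k → MvPolynomial.aeval x (MvPolynomial.esymm (Fin k) (ZMod p) j) =
      MvPolynomial.aeval y (MvPolynomial.esymm (Fin k) (ZMod p) j) := by
  have hF : Fact p.Prime := ⟨hp⟩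
  induction j using Nat.strong_induction_on with
  | _ j ih =>
    intro hj
    rcases Nat.eq_zero_or_pos j with h0 | h0
    · subst h0
      simp
    · have hx := congrArg (MvPolynomial.aeval x)
        (MvPolynomial.mul_esymm_eq_sum (Fin k) (ZMod p) j)
      have hy := congrArg (MvPolynomial.aeval y)
        (MvPolynomial.mul_esymm_eq_sum (Fin k) (ZMod p) j)
      rw [map_mul, map_mul, map_sum] at hx hy
      have hs : ∑ a ∈ antidiagonal j with a.1 < j, MvPolynomial.aeval x
            ((-1) ^ a.1 * MvPolynomial.esymm (Fin k) (ZMod p) a.1 *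
              MvPolynomial.psum (Fin k) (ZMod p) a.2) =
          ∑ a ∈ antidiagonal j with a.1 < j, MvPolynomial.aeval y
            ((-1) ^ a.1 * MvPolynomial.esymm (Fin k) (ZMod p) a.1 *
              MvPolynomial.psum (Fin k) (ZMod p) a.2) := by
        apply Finset.sum_congr rfl
        intro a ha
        rw [Finset.mem_filter, Finset.HasAntidiagonal.mem_antidiagonal] at ha
        obtain ⟨ha1, ha2⟩ := ha
        rw [map_mul, map_mul, map_mul, map_mul, ih a.1 ha2 (by omega)]
        have hps : MvPolynomial.aeval x (MvPolynomial.psum (Fin k) (ZMod p) a.2) =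
            MvPolynomial.aeval y (MvPolynomial.psum (Fin k) (ZMod p) a.2) := by
          have h1 := h ⟨a.2 - 1, by omega⟩
          have h2 : a.2 - 1 + 1 = a.2 := by omega
          simp only [h2] at h1
          simpa [MvPolynomial.psum] using h1
        rw [hps]
        simp
      rw [hs] at hx
      have hm : MvPolynomial.aeval x ((-1 : MvPolynomial (Fin k) (ZMod p)) ^ (j + 1)) =
          MvPolynomial.aeval y ((-1 : MvPolynomial (Fin k) (ZMod p)) ^ (j + 1)) := by
        simp
      rw [hm, ← hy] at hx
      have hj0 : (j : ZMod p) ≠ 0 := by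
        rw [Ne, ZMod.natCast_eq_zero_iff]
        intro hd
        exact absurd (Nat.le_of_dvd h0 hd) (by omega)
      have hc : ∀ z : Fin k → ZMod p,
          MvPolynomial.aeval z ((j : ℕ) : MvPolynomial (Fin k) (ZMod p)) = (j : ZMod p) := by
        intro z
        simp
      rw [hc, hc] at hx
      exact mul_left_cancel₀ hj0 hx

theorem perm_of (hp : p.Prime) (hk : k < p) (x y : Fin k → ZMod p)
    (h : ∀ j : Fin k, ∑ i, x i ^ ((j : ℕ) + 1) = ∑ i, y i ^ ((j : ℕ) + 1)) :
    (List.ofFn y).Perm (List.ofFn x) := by
  have hF : Fact p.Prime := ⟨hp⟩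
  have h1 : ((univ.val.map x).map (fun t => Polynomial.X - Polynomial.C t)).prod =
      ((univ.val.map y).map (fun t => Polynomial.X - Polynomial.C t)).prod := by
    rw [Multiset.prod_X_sub_X_eq_sum_esymm, Multiset.prod_X_sub_X_eq_sum_esymm]
    have hcx : Multiset.card ((univ : Finset (Fin k)).val.map x) = k := by simp
    have hcy : Multiset.card ((univ : Finset (Fin k)).val.map y) = k := by simp
    rw [hcx, hcy]
    apply Finset.sum_congr rfl
    intro j hj
    rw [Finset.mem_range] at hj
    have h2 := esymm_eq hp hk x y h j (by omega)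
    rw [MvPolynomial.aeval_esymm_eq_multiset_esymm,
      MvPolynomial.aeval_esymm_eq_multiset_esymm] at h2
    rw [h2]
  have h3 := congrArg Polynomial.roots h1
  rw [Polynomial.roots_multiset_prod_X_sub_C, Polynomial.roots_multiset_prod_X_sub_C,
    Fin.univ_val_map, Fin.univ_val_map] at h3
  exact (Multiset.coe_eq_coe.mp h3).symm

end

theorem nwt : NwtStmt := by
  intro p k hp hk
  classical
  have hF : Fact p.Prime := ⟨hp⟩
  rw [Nat.card_eq_fintype_card, Fintype.card_subtype]
  have h1 := Finset.card_le_mul_card_image (f := Prod.fst)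
    (univ.filter (fun v : (Fin k → ZMod p) × (Fin k → ZMod p) =>
      ∀ j : Fin k, ∑ i, v.1 i ^ ((j : ℕ) + 1) = ∑ i, v.2 i ^ ((j : ℕ) + 1))) k.factorial ?_
  · refine h1.trans (Nat.mul_le_mul_left _ ?_)
    refine (Finset.card_le_univ _).trans ?_
    rw [Fintype.card_fun, Fintype.card_fin, ZMod.card]
  · intro x _
    have h2 : ((List.ofFn x).permutations.toFinset).card ≤ k.factorial := by
      refine (List.toFinset_card_le _).trans ?_
      rw [List.length_permutations, List.length_ofFn]
    refine le_trans ?_ h2
    apply Finset.card_le_card_of_injOn (fun v => List.ofFn v.2)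
    · intro v hv
      rw [Finset.mem_coe, Finset.mem_filter, Finset.mem_filter] at hv
      obtain ⟨⟨_, hv1⟩, hv2⟩ := hv
      rw [Finset.mem_coe, List.mem_toFinset, List.mem_permutations]
      rw [← hv2]
      exact perm_of hp hk v.1 v.2 hv1
    · intro v hv w hw hvw
      rw [Finset.mem_coe, Finset.mem_filter] at hv hw
      have h3 : v.2 = w.2 := List.ofFn_injective hvw
      exact Prod.ext (hv.2.trans hw.2.symm) h3

end Pool.Agent.VM.H29
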